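import Pool.Agent.WBD.Vanish
import Pool.Agent.WBD.NonAm

/-!
# MP_8e34e8_an, Q1: a Banach function algebra of weak bidimension one

The algebra is written down explicitly: it consists of all continuous functions `f` on the one point
compactification of `ℕ` (the convergent sequences) with `∑ |f (2 k + 1) - f (2 k)| < ∞`. It is not
amenable, and every bounded 2-cocycle with values in a dual Banach bimodule is a coboundary.
-/

set_option autoImplicit false

open Filter Topology OnePoint

namespace Pool.Agent.Results.MP_8e34e8_an.PairedValues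

universe u

/-- A Banach `A`-bimodule structure on the Banach space `E`: the actions `a · x = left a x` and
`x · a = right a x` are bounded bilinear maps, and the three associativity laws hold. -/
structure BanachBimodule (A : Type*) (E : Type*) [NormedRing A] [NormedAlgebra ℂ A]
    [NormedAddCommGroup E] [NormedSpace ℂ E] where
  /-- `left a x = a · x` -/
  left : A →L[ℂ] E →L[ℂ] E
  /-- `right a x = x · a` -/
  right : A →L[ℂ] E →L[ℂ] E
  left_mul : ∀ (a b : A) (x : E), left (a * b) x = left a (left b x)
  right_mul : ∀ (a b : A) (x : E), right (a * b) x = right b (right a x)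
  left_right : ∀ (a b : A) (x : E), left a (right b x) = right b (left a x)

section
variable {A : Type*} {E : Type*} [NormedRing A] [NormedAlgebra ℂ A]
  [NormedAddCommGroup E] [NormedSpace ℂ E]

/-- The left action of `A` on the dual of a bimodule: `(a · f) x = f (x · a)`. -/
noncomputable def BanachBimodule.dualLeft (m : BanachBimodule A E) (a : A) (f : E →L[ℂ] ℂ) :
    E →L[ℂ] ℂ := f.comp (m.right a)

/-- The right action of `A` on the dual of a bimodule: `(f · a) x = f (a · x)`. -/
noncomputable def BanachBimodule.dualRight (m : BanachBimodule A E) (f : E →L[ℂ] ℂ) (a : A) :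
    E →L[ℂ] ℂ := f.comp (m.left a)

/-- `D` is a derivation into the dual bimodule: `D (a b) = a · D b + D a · b`. -/
def BanachBimodule.IsDer (m : BanachBimodule A E) (D : A →L[ℂ] (E →L[ℂ] ℂ)) : Prop :=
  ∀ a b : A, D (a * b) = m.dualLeft a (D b) + m.dualRight (D a) b

/-- `D` is inner: `D a = a · f - f · a` for some `f` in the dual bimodule. -/
def BanachBimodule.IsInner (m : BanachBimodule A E) (D : A →L[ℂ] (E →L[ℂ] ℂ)) : Prop :=
  ∃ f : E →L[ℂ] ℂ, ∀ a : A, D a = m.dualLeft a f - m.dualRight f a

/-- `T` is a 2-cocycle: `a · T(b,c) - T(ab,c) + T(a,bc) - T(a,b) · c = 0`. -/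
def BanachBimodule.IsCocycle (m : BanachBimodule A E) (T : A →L[ℂ] A →L[ℂ] (E →L[ℂ] ℂ)) : Prop :=
  ∀ a b c : A, m.dualLeft a (T b c) - T (a * b) c + T a (b * c) - m.dualRight (T a b) c = 0

/-- `T` is the coboundary of `S`: `T(a,b) = a · S b - S (a b) + S a · b`. -/
def BanachBimodule.IsCobOf (m : BanachBimodule A E) (T : A →L[ℂ] A →L[ℂ] (E →L[ℂ] ℂ))
    (S : A →L[ℂ] (E →L[ℂ] ℂ)) : Prop :=
  ∀ a b : A, T a b = m.dualLeft a (S b) - S (a * b) + m.dualRight (S a) b

/-- First continuous Hochschild cohomology of `A` with coefficients in the dual bimodule is zero: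
every bounded derivation is inner. -/
def BanachBimodule.DualH1Zero (m : BanachBimodule A E) : Prop :=
  ∀ D : A →L[ℂ] (E →L[ℂ] ℂ), m.IsDer D → m.IsInner D

/-- Second continuous Hochschild cohomology of `A` with coefficients in the dual bimodule is zero:
every bounded 2-cocycle is the coboundary of a bounded linear map. -/
def BanachBimodule.DualH2Zero (m : BanachBimodule A E) : Prop :=
  ∀ T : A →L[ℂ] A →L[ℂ] (E →L[ℂ] ℂ), m.IsCocycle T → ∃ S : A →L[ℂ] (E →L[ℂ] ℂ), m.IsCobOf T S

end

/-- `A` is amenable (tested on Banach bimodules in the universe `u`). -/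
def IsAmenable.{v, w} (A : Type w) [NormedRing A] [NormedAlgebra ℂ A] : Prop :=
  ∀ (E : Type v) [NormedAddCommGroup E] [NormedSpace ℂ E] [CompleteSpace E]
    (m : BanachBimodule A E), m.DualH1Zero

/-- `H²(A, X) = 0` for all dual Banach bimodules `X` (with predual in the universe `v`). -/
def AllDualH2Zero.{v, w} (A : Type w) [NormedRing A] [NormedAlgebra ℂ A] : Prop :=
  ∀ (E : Type v) [NormedAddCommGroup E] [NormedSpace ℂ E] [CompleteSpace E]
    (m : BanachBimodule A E), m.DualH2Zero

/-- The algebra of functions of the theorem: all continuous `f` on `OnePoint ℕ` with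
`∑ ‖f (2 k + 1) - f (2 k)‖ < ∞`. -/
def PairSummable (f : C(OnePoint ℕ, ℂ)) : Prop :=
  Summable fun k : ℕ => ‖f ((2 * k + 1 : ℕ) : OnePoint ℕ) - f ((2 * k : ℕ) : OnePoint ℕ)‖

open Pool.Agent.WBD

/-- every convergent sequence with summable pair differences is in the range of `phi` -/
theorem range_phi (f : C(OnePoint ℕ, ℂ)) : (∃ x, phi x = f) ↔ PairSummable f := by
  constructor
  · rintro ⟨x, rfl⟩
    have h : ∀ k : ℕ, phi x ((2 * k + 1 : ℕ) : OnePoint ℕ) - phi x ((2 * k : ℕ) : OnePoint ℕ)
        = x.q k := by
      intro k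
      change gel x (2 * k + 1) - gel x (2 * k) = x.q k
      have e1 : 2 * k / 2 = k := by omega
      have e2 : 2 * k % 2 = 0 := by omega
      have e3 : (2 * k + 1) / 2 = k := by omega
      have e4 : (2 * k + 1) % 2 = 1 := by omega
      simp [gel, e1, e3, e4]
    change Summable fun k : ℕ =>
      ‖phi x ((2 * k + 1 : ℕ) : OnePoint ℕ) - phi x ((2 * k : ℕ) : OnePoint ℕ)‖
    simp_rw [h]
    exact summable_LL x.q
  · intro hf
    have hf' : Summable fun k : ℕ =>
      ‖f ((2 * k + 1 : ℕ) : OnePoint ℕ) - f ((2 * k : ℕ) : OnePoint ℕ)‖ := hf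
    have ht : Tendsto (fun n : ℕ => ev f n) atTop (𝓝 (f ∞)) := tendsto_ev f
    have h2 : Tendsto (fun n : ℕ => ev f (2 * n)) atTop (𝓝 (f ∞)) :=
      ht.comp (tendsto_id.const_mul_atTop' (by norm_num))
    let p : CC := mkC (fun n => ev f (2 * n)) (f ∞) h2
    let qf : ℕ → ℂ := fun k => ev f (2 * k + 1) - ev f (2 * k)
    have hq : Memℓp (E := fun _ : ℕ => ℂ) qf 1 := by
      rw [memℓp_gen_iff (by simp)]
      have e : (fun i : ℕ => ‖qf i‖ ^ (1 : ENNReal).toReal) = fun k : ℕ =>
          ‖f ((2 * k + 1 : ℕ) : OnePoint ℕ) - f ((2 * k : ℕ) : OnePoint ℕ)‖ := by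
        funext k
        rw [ENNReal.toReal_one, Real.rpow_one]
        rfl
      rw [e]
      exact hf'
    let q : LL := ⟨qf, hq⟩
    refine ⟨AA.mk p q, ?_⟩
    apply CC_ext
    · intro n
      rw [ev_phi]
      rcases Nat.even_or_odd' n with ⟨k, hk | hk⟩
      · subst hk
        have e1 : 2 * k / 2 = k := by omega
        have e2 : 2 * k % 2 = 0 := by omega
        simp [gel, e1, p]
      · subst hk
        have e3 : (2 * k + 1) / 2 = k := by omega
        have e4 : (2 * k + 1) % 2 = 1 := by omega
        simp only [gel, e3, e4, AA.p_mk, AA.q_mk]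
        have : ev p k = ev f (2 * k) := rfl
        rw [this]
        have h3 : q k = ev f (2 * k + 1) - ev f (2 * k) := rfl
        rw [h3]
        simp
    · rfl

/-- **There is a Banach function algebra of weak bidimension one.** There is a complete commutative
unital normed algebra `A`, realised by an injective homomorphism `φ` as the algebra of all
continuous functions `f` on the compact space `OnePoint ℕ` with
`∑ ‖f (2 k + 1) - f (2 k)‖ < ∞` (it separates the points), which is not amenable, while
`H²(A, X) = 0` for every dual Banach `A`-bimodule `X`. -/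
theorem result :
    ∃ (A : Type) (_ : NormedCommRing A) (_ : NormedAlgebra ℂ A) (_ : CompleteSpace A)
      (φ : A →ₐ[ℂ] C(OnePoint ℕ, ℂ)),
      Function.Injective φ ∧
      (∀ f : C(OnePoint ℕ, ℂ), (∃ x, φ x = f) ↔ PairSummable f) ∧
      (∀ s t : OnePoint ℕ, s ≠ t → ∃ a : A, φ a s ≠ φ a t) ∧
      ¬ IsAmenable.{0} A ∧
      AllDualH2Zero.{u} A := by
  refine ⟨AA, inferInstance, inferInstance, inferInstance, phi, phi_inj, range_phi, phi_sep, ?_, ?_⟩
  · intro h
    let m : BanachBimodule AA CC :=
      { left := (ContinuousLinearMap.mul ℂ CC).comp pi1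
        right := (ContinuousLinearMap.mul ℂ CC).comp pi0
        left_mul := by
          intro a b x
          simp only [ContinuousLinearMap.comp_apply, ContinuousLinearMap.mul_apply', pi1_mul]
          ring
        right_mul := by
          intro a b x
          simp only [ContinuousLinearMap.comp_apply, ContinuousLinearMap.mul_apply', pi0_mul]
          ring
        left_right := by
          intro a b x
          simp only [ContinuousLinearMap.comp_apply, ContinuousLinearMap.mul_apply']
          ring }
    obtain ⟨f, hf⟩ := h CC m der (by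
      intro a b
      ext x
      exact der_rule a b x)
    exact not_inner ⟨f, fun a x => congrArg (fun g => g x) (hf a)⟩
  · intro E _ _ _ m T hT
    obtain ⟨S, hS⟩ := vanish (A := AA) (E := E) trunc trunc_tendsto (fun N =>
      ⟨Fin (N + 1), inferInstance, inferInstance, eN N, jN N, uN N, isRes N, isBlk N,
        trunc_mem N⟩) m.left m.right
      (fun a b => ContinuousLinearMap.ext fun x => m.left_mul a b x)
      (fun a b => ContinuousLinearMap.ext fun x => m.right_mul a b x)
      (fun a b => ContinuousLinearMap.ext fun x => m.left_right a b x) T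
      (fun a b c x => congrArg (fun g => g x) (hT a b c))
    exact ⟨S, fun a b => ContinuousLinearMap.ext fun x => hS a b x⟩

end Pool.Agent.Results.MP_8e34e8_an.PairedValues
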